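import Mathlib

/-!
# The other factor: a binary form of degree `r`
-/

namespace Pool.Agent.helper440_cubic

/-- the binary form with the coefficients `k 0, ..., k r` -/
def form (r : ℕ) (k : ℕ → ℤ) (x y : ℤ) : ℤ := ∑ j ∈ Finset.range (r + 1), k j * x ^ j * y ^ (r - j)

theorem form_le (r : ℕ) (k : ℕ → ℤ) {x y M : ℤ} (hx : |x| ≤ M) (hy : |y| ≤ M) :
    |form r k x y| ≤ (∑ j ∈ Finset.range (r + 1), |k j|) * M ^ r := by
  have hM : 0 ≤ M := (abs_nonneg x).trans hx
  unfold form
  rw [Finset.sum_mul]
  refine (Finset.abs_sum_le_sum_abs _ _).trans (Finset.sum_le_sum fun j hj => ?_)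
  have hj' : j ≤ r := by rw [Finset.mem_range] at hj; omega
  rw [abs_mul, abs_mul, abs_pow, abs_pow]
  calc |k j| * |x| ^ j * |y| ^ (r - j) ≤ |k j| * M ^ j * M ^ (r - j) := by gcongr
    _ = |k j| * M ^ r := by rw [mul_assoc, ← pow_add]; congr 2; omega

theorem form_ne_zero (r : ℕ) (k : ℕ → ℤ) (hk : ∃ j ≤ r, k j ≠ 0) :
    ∃ B : ℤ, ∀ x y : ℤ, IsCoprime x y → B < max |x| |y| → form r k x y ≠ 0 := by
  classical
  set P : Polynomial ℚ := ∑ j ∈ Finset.range (r + 1), Polynomial.C (k j : ℚ) * Polynomial.X ^ j
    with hP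
  have hcoef : ∀ i ≤ r, P.coeff i = k i := by
    intro i hi
    rw [hP, Polynomial.finsetSum_coeff]
    simp only [Polynomial.coeff_C_mul, Polynomial.coeff_X_pow]
    rw [Finset.sum_eq_single i]
    · simp
    · intro j _ hji
      rw [if_neg (Ne.symm hji), mul_zero]
    · intro h
      exact absurd (Finset.mem_range.2 (by omega)) h
  have hP0 : P ≠ 0 := by
    obtain ⟨j, hj, hkj⟩ := hk
    intro h
    have := hcoef j hj
    rw [h, Polynomial.coeff_zero] at this
    exact hkj (by exact_mod_cast this.symm)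
  refine ⟨1 + ∑ t ∈ P.roots.toFinset, (|t.num| + t.den), fun x y hxy hB h0 => ?_⟩
  have hsum0 : 0 ≤ ∑ t ∈ P.roots.toFinset, (|t.num| + (t.den : ℤ)) :=
    Finset.sum_nonneg fun t _ => by positivity
  by_cases hy : y = 0
  · subst hy
    have hx : IsUnit x := by
      obtain ⟨u, v, huv⟩ := hxy
      rw [mul_zero, add_zero] at huv
      exact IsUnit.of_mul_eq_one_right u huv
    have : |x| = 1 := Int.isUnit_iff_abs_eq.1 hx
    rw [this, abs_zero, max_eq_left (by norm_num)] at hB
    linarith
  · set t : ℚ := (x : ℚ) / y with ht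
    have hyq : (y : ℚ) ≠ 0 := by exact_mod_cast hy
    have hroot : P.IsRoot t := by
      have h1 : ((form r k x y : ℤ) : ℚ) = (y : ℚ) ^ r * P.eval t := by
        rw [hP, Polynomial.eval_finsetSum, Finset.mul_sum]
        unfold form
        push_cast
        refine Finset.sum_congr rfl fun j hj => ?_
        have hj' : j ≤ r := by rw [Finset.mem_range] at hj; omega
        have e : (y : ℚ) ^ r = y ^ (r - j) * y ^ j := by rw [← pow_add]; congr 1; omega
        rw [Polynomial.eval_mul, Polynomial.eval_C, Polynomial.eval_pow, Polynomial.eval_X, e, ht,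
          div_pow]
        field_simp
      rw [h0, Int.cast_zero] at h1
      exact (mul_eq_zero.1 h1.symm).resolve_left (pow_ne_zero _ hyq)
    have hmem : t ∈ P.roots.toFinset := by
      rw [Multiset.mem_toFinset, Polynomial.mem_roots hP0]; exact hroot
    have hle : |t.num| + (t.den : ℤ) ≤ ∑ t ∈ P.roots.toFinset, (|t.num| + (t.den : ℤ)) :=
      Finset.single_le_sum (f := fun t : ℚ => |t.num| + (t.den : ℤ))
        (fun t _ => by positivity) hmem
    have hcross : x * t.den = t.num * y := by
      have h1 : t * t.den = t.num := Rat.mul_den_eq_num t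
      have h2 : (x : ℚ) * t.den = t.num * y := by
        rw [← h1, ht]; field_simp
      exact_mod_cast h2
    have hyd : y ∣ (t.den : ℤ) := by
      have : y ∣ x * t.den := ⟨t.num, by rw [hcross]; ring⟩
      exact hxy.symm.dvd_of_dvd_mul_left this
    have hxn : x ∣ t.num := by
      have : x ∣ t.num * y := ⟨t.den, hcross.symm⟩
      exact hxy.dvd_of_dvd_mul_right this
    have hden : (0 : ℤ) < t.den := by exact_mod_cast t.den_pos
    have h3 : |y| ≤ (t.den : ℤ) := by
      have := Int.le_of_dvd hden ((abs_dvd _ _).2 hyd)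
      exact this
    have h4 : |x| ≤ |t.num| := by
      by_cases hn : t.num = 0
      · have : t = 0 := Rat.num_eq_zero.1 hn
        have h5 : (x : ℚ) = 0 := by
          have := this
          rw [ht, div_eq_zero_iff] at this
          exact this.resolve_right hyq
        have h6 : x = 0 := by exact_mod_cast h5
        rw [h6, abs_zero]; exact abs_nonneg _
      · exact Int.le_of_dvd (abs_pos.2 hn) ((abs_dvd_abs _ _).2 hxn)
    have h7 : max |x| |y| ≤ |t.num| + (t.den : ℤ) :=
      max_le (by linarith) (by linarith [abs_nonneg t.num])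
    linarith

end Pool.Agent.helper440_cubic
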