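import Pool.Agent.helper440_cubic.Step

/-!
# Iteration of the tangent construction
-/

namespace Pool.Agent.helper440_cubic

variable {a b c d : ℤ}

/-- a bound for a binary quartic form -/
theorem quartic_le (p q r s t x y M : ℤ) (hx : |x| ≤ M) (hy : |y| ≤ M) :
    |p * x ^ 4 + q * x ^ 3 * y + r * x ^ 2 * y ^ 2 + s * x * y ^ 3 + t * y ^ 4| ≤
      (|p| + |q| + |r| + |s| + |t|) * M ^ 4 := by
  have hM : 0 ≤ M := (abs_nonneg x).trans hx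
  have h1 : |p * x ^ 4| ≤ |p| * M ^ 4 := by
    rw [abs_mul, abs_pow]; gcongr
  have h2 : |q * x ^ 3 * y| ≤ |q| * M ^ 4 := by
    rw [abs_mul, abs_mul, abs_pow]
    calc |q| * |x| ^ 3 * |y| ≤ |q| * M ^ 3 * M := by gcongr
      _ = |q| * M ^ 4 := by ring
  have h3 : |r * x ^ 2 * y ^ 2| ≤ |r| * M ^ 4 := by
    rw [abs_mul, abs_mul, abs_pow, abs_pow]
    calc |r| * |x| ^ 2 * |y| ^ 2 ≤ |r| * M ^ 2 * M ^ 2 := by gcongr
      _ = |r| * M ^ 4 := by ring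
  have h4 : |s * x * y ^ 3| ≤ |s| * M ^ 4 := by
    rw [abs_mul, abs_mul, abs_pow]
    calc |s| * |x| * |y| ^ 3 ≤ |s| * M * M ^ 3 := by gcongr
      _ = |s| * M ^ 4 := by ring
  have h5 : |t * y ^ 4| ≤ |t| * M ^ 4 := by
    rw [abs_mul, abs_pow]; gcongr
  calc |p * x ^ 4 + q * x ^ 3 * y + r * x ^ 2 * y ^ 2 + s * x * y ^ 3 + t * y ^ 4|
      ≤ |p * x ^ 4| + |q * x ^ 3 * y| + |r * x ^ 2 * y ^ 2| + |s * x * y ^ 3| + |t * y ^ 4| := by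
        refine (abs_add_le _ _).trans (add_le_add_left ?_ _)
        refine (abs_add_le _ _).trans (add_le_add_left ?_ _)
        refine (abs_add_le _ _).trans (add_le_add_left ?_ _)
        exact abs_add_le _ _
    _ ≤ _ := by linarith

theorem exists_K (a b c d : ℤ) : ∃ K : ℤ, 1 ≤ K ∧ ∀ x y M : ℤ, |x| ≤ M → |y| ≤ M →
    |X a b c d x y| ≤ K * M ^ 4 ∧ |Y a b c d x y| ≤ K * M ^ 4 := by
  set p₀ := b ^ 3 - 27 * a ^ 2 * d
  set p₁ := 6 * b ^ 2 * c - 54 * a * b * d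
  set p₂ := 12 * b * c ^ 2 - 18 * b ^ 2 * d - 54 * a * c * d
  set p₃ := 8 * c ^ 3 - 18 * b * c * d - 54 * a * d ^ 2
  set p₄ := 9 * c ^ 2 * d - 27 * b * d ^ 2
  set q₀ := -9 * a * b ^ 2 + 27 * a ^ 2 * c
  set q₁ := -8 * b ^ 3 + 18 * a * b * c + 54 * a ^ 2 * d
  set q₂ := -12 * b ^ 2 * c + 18 * a * c ^ 2 + 54 * a * b * d
  set q₃ := -6 * b * c ^ 2 + 54 * a * c * d
  set q₄ := -c ^ 3 + 27 * a * d ^ 2
  refine ⟨1 + (|p₀| + |p₁| + |p₂| + |p₃| + |p₄|) + (|q₀| + |q₁| + |q₂| + |q₃| + |q₄|), ?_, ?_⟩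
  · have hP : 0 ≤ |p₀| + |p₁| + |p₂| + |p₃| + |p₄| := by positivity
    have hQ : 0 ≤ |q₀| + |q₁| + |q₂| + |q₃| + |q₄| := by positivity
    linarith
  · intro x y M hx hy
    have hM : 0 ≤ M := (abs_nonneg x).trans hx
    have h1 := quartic_le p₀ p₁ p₂ p₃ p₄ x y M hx hy
    have h2 := quartic_le q₀ q₁ q₂ q₃ q₄ x y M hx hy
    have e1 : X a b c d x y = p₀ * x ^ 4 + p₁ * x ^ 3 * y + p₂ * x ^ 2 * y ^ 2 + p₃ * x * y ^ 3 +
        p₄ * y ^ 4 := by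
      simp only [p₀, p₁, p₂, p₃, p₄]; unfold X G H Fx Fy; ring
    have e2 : Y a b c d x y = q₀ * x ^ 4 + q₁ * x ^ 3 * y + q₂ * x ^ 2 * y ^ 2 + q₃ * x * y ^ 3 +
        q₄ * y ^ 4 := by
      simp only [q₀, q₁, q₂, q₃, q₄]; unfold Y G H Fx Fy; ring
    have hM4 : 0 ≤ M ^ 4 := by positivity
    have hP : 0 ≤ |p₀| + |p₁| + |p₂| + |p₃| + |p₄| := by positivity
    have hQ : 0 ≤ |q₀| + |q₁| + |q₂| + |q₃| + |q₄| := by positivity
    rw [e1, e2]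
    constructor
    · refine h1.trans (mul_le_mul_of_nonneg_right ?_ hM4); linarith
    · refine h2.trans (mul_le_mul_of_nonneg_right ?_ hM4); linarith

theorem F_le (a b c d x y M : ℤ) (hx : |x| ≤ M) (hy : |y| ≤ M) :
    |F a b c d x y| ≤ (|a| + |b| + |c| + |d|) * M ^ 3 := by
  have hM : 0 ≤ M := (abs_nonneg x).trans hx
  have h1 : |a * x ^ 3| ≤ |a| * M ^ 3 := by
    rw [abs_mul, abs_pow]; gcongr
  have h2 : |b * x ^ 2 * y| ≤ |b| * M ^ 3 := by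
    rw [abs_mul, abs_mul, abs_pow]
    calc |b| * |x| ^ 2 * |y| ≤ |b| * M ^ 2 * M := by gcongr
      _ = |b| * M ^ 3 := by ring
  have h3 : |c * x * y ^ 2| ≤ |c| * M ^ 3 := by
    rw [abs_mul, abs_mul, abs_pow]
    calc |c| * |x| * |y| ^ 2 ≤ |c| * M * M ^ 2 := by gcongr
      _ = |c| * M ^ 3 := by ring
  have h4 : |d * y ^ 3| ≤ |d| * M ^ 3 := by
    rw [abs_mul, abs_pow]; gcongr
  unfold F
  calc |a * x ^ 3 + b * x ^ 2 * y + c * x * y ^ 2 + d * y ^ 3|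
      ≤ |a * x ^ 3| + |b * x ^ 2 * y| + |c * x * y ^ 2| + |d * y ^ 3| := by
        refine (abs_add_le _ _).trans (add_le_add_left ?_ _)
        refine (abs_add_le _ _).trans (add_le_add_left ?_ _)
        exact abs_add_le _ _
    _ ≤ _ := by linarith

/-- the iteration -/
theorem iter {D : ℕ} (hD : ¬ (2 : ℤ) ^ (D + 1) ∣ disc a b c d) {x₀ y₀ : ℤ}
    (hxy : IsCoprime x₀ y₀) {t : ℕ} (ht : 3 * D + 2 ≤ t) (h2 : (2 : ℤ) ^ t ∣ F a b c d x₀ y₀)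
    (hF : F a b c d x₀ y₀ ≠ 0) {K : ℤ} (hK : 1 ≤ K)
    (hK' : ∀ x y M : ℤ, |x| ≤ M → |y| ≤ M →
      |X a b c d x y| ≤ K * M ^ 4 ∧ |Y a b c d x y| ≤ K * M ^ 4) (n : ℕ) :
    ∃ (x y : ℤ) (ρ : ℚ), IsCoprime x y ∧ F a b c d x y ≠ 0 ∧
      (F a b c d x y : ℚ) = F a b c d x₀ y₀ * ρ ^ 3 ∧ (2 : ℤ) ^ (t + 3 * n) ∣ F a b c d x y ∧
      K * max |x| |y| ≤ (K * max |x₀| |y₀|) ^ 4 ^ n := by
  induction n with
  | zero => exact ⟨x₀, y₀, 1, hxy, hF, by ring, by simpa using h2, by simp⟩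
  | succ n ih =>
    obtain ⟨x, y, ρ, hc, h0, hρ, hd, hM⟩ := ih
    obtain ⟨x', y', σ, hc', h0', hσ, hd', hx', hy'⟩ :=
      step hD hc ((pow_dvd_pow 2 (by omega)).trans hd) h0
    refine ⟨x', y', ρ * σ, hc', h0', ?_, ?_, ?_⟩
    · rw [hσ, hρ]; ring
    · have := hd' _ hd
      have e : t + 3 * (n + 1) = t + 3 * n + 3 := by ring
      rwa [e]
    · obtain ⟨hX, hY⟩ := hK' x y (max |x| |y|) (le_max_left _ _) (le_max_right _ _)
      have h1 : max |x'| |y'| ≤ K * (max |x| |y|) ^ 4 :=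
        max_le (hx'.trans hX) (hy'.trans hY)
      have hM0 : 0 ≤ max |x| |y| := (abs_nonneg x).trans (le_max_left _ _)
      calc K * max |x'| |y'| ≤ K * (K * (max |x| |y|) ^ 4) := by gcongr
        _ ≤ K ^ 2 * (K * (K * (max |x| |y|) ^ 4)) := by
            refine le_mul_of_one_le_left (by positivity) (one_le_pow₀ hK)
        _ = (K * max |x| |y|) ^ 4 := by ring
        _ ≤ ((K * max |x₀| |y₀|) ^ 4 ^ n) ^ 4 := by gcongr
        _ = (K * max |x₀| |y₀|) ^ 4 ^ (n + 1) := by rw [← pow_mul, pow_succ]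

end Pool.Agent.helper440_cubic
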