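import Mathlib

/-!
# Binary cubic forms and the tangent construction on the curve `F (x, y) = k z³`

`F = a x³ + b x² y + c x y² + d y³` with the Hessian `H` and the Jacobian covariant `G`. The tangent
at a point `(x, y, z)` of the cubic curve `F (x, y) = k z³` meets the curve again in
`(G x + 3 H F_y, G y - 3 H F_x, G z)`.
-/

namespace Pool.Agent.helper440_cubic

variable (a b c d : ℤ)

/-- the cubic form -/
def F (x y : ℤ) : ℤ := a * x ^ 3 + b * x ^ 2 * y + c * x * y ^ 2 + d * y ^ 3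

/-- the discriminant -/
def disc : ℤ := b ^ 2 * c ^ 2 - 4 * a * c ^ 3 - 4 * b ^ 3 * d - 27 * a ^ 2 * d ^ 2 +
  18 * a * b * c * d

def Fx (x y : ℤ) : ℤ := 3 * a * x ^ 2 + 2 * b * x * y + c * y ^ 2
def Fy (x y : ℤ) : ℤ := b * x ^ 2 + 2 * c * x * y + 3 * d * y ^ 2
def H (x y : ℤ) : ℤ :=
  (b ^ 2 - 3 * a * c) * x ^ 2 + (b * c - 9 * a * d) * x * y + (c ^ 2 - 3 * b * d) * y ^ 2
def G (x y : ℤ) : ℤ :=
  Fx a b c x y * ((b * c - 9 * a * d) * x + 2 * (c ^ 2 - 3 * b * d) * y) -
    Fy b c d x y * (2 * (b ^ 2 - 3 * a * c) * x + (b * c - 9 * a * d) * y)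
def X (x y : ℤ) : ℤ := G a b c d x y * x + 3 * H a b c d x y * Fy b c d x y
def Y (x y : ℤ) : ℤ := G a b c d x y * y - 3 * H a b c d x y * Fx a b c x y

theorem euler (x y : ℤ) : x * Fx a b c x y + y * Fy b c d x y = 3 * F a b c d x y := by
  unfold Fx Fy F; ring

theorem taylor (x y s t p q : ℤ) : F a b c d (s * x + t * p) (s * y + t * q) =
    s ^ 3 * F a b c d x y + s ^ 2 * t * (p * Fx a b c x y + q * Fy b c d x y) +
    s * t ^ 2 * (p ^ 2 * (3 * a * x + b * y) + p * q * (2 * b * x + 2 * c * y) +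
      q ^ 2 * (c * x + 3 * d * y)) + t ^ 3 * F a b c d p q := by
  unfold Fx Fy F; ring

theorem hess (x y : ℤ) : Fy b c d x y ^ 2 * (3 * a * x + b * y) -
    Fy b c d x y * Fx a b c x y * (2 * b * x + 2 * c * y) +
    Fx a b c x y ^ 2 * (c * x + 3 * d * y) = -3 * H a b c d x y * F a b c d x y := by
  unfold Fx Fy H F; ring

theorem cov (x y : ℤ) : F a b c d (Fy b c d x y) (-Fx a b c x y) =
    G a b c d x y * F a b c d x y := by
  unfold G Fx Fy F; ring

/-- the tangent construction -/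
theorem tangent (x y : ℤ) : F a b c d (X a b c d x y) (Y a b c d x y) =
    G a b c d x y ^ 3 * F a b c d x y := by
  have h1 := taylor a b c d x y (G a b c d x y) (3 * H a b c d x y) (Fy b c d x y)
    (-Fx a b c x y)
  have h2 := hess a b c d x y
  have h3 := cov a b c d x y
  have e1 : X a b c d x y = G a b c d x y * x + 3 * H a b c d x y * Fy b c d x y := rfl
  have e2 : Y a b c d x y = G a b c d x y * y + 3 * H a b c d x y * -Fx a b c x y := by
    unfold Y; ring
  rw [e1, e2, h1, h3]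
  linear_combination (9 * G a b c d x y * H a b c d x y ^ 2) * h2

/-- the coefficient of `X Y²` after the substitution `(1, 0) ↦ (x, y)`, `(0, 1) ↦ (-v, u)` -/
def c' (x y u v : ℤ) : ℤ :=
  v ^ 2 * (3 * a * x + b * y) - u * v * (2 * b * x + 2 * c * y) + u ^ 2 * (c * x + 3 * d * y)

theorem H_eq (x y u v : ℤ) : H a b c d x y * (u * x + v * y) ^ 2 =
    (u * Fy b c d x y - v * Fx a b c x y) ^ 2 - 3 * F a b c d x y * c' a b c d x y u v := by
  unfold H Fx Fy F c'; ring

theorem G_eq (x y u v : ℤ) : G a b c d x y * (u * x + v * y) ^ 3 =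
    -2 * (u * Fy b c d x y - v * Fx a b c x y) ^ 3 +
      9 * F a b c d x y * (u * Fy b c d x y - v * Fx a b c x y) * c' a b c d x y u v -
      27 * F a b c d x y ^ 2 * F a b c d (-v) u := by
  unfold G Fx Fy F c'; ring

theorem disc_eq (x y u v : ℤ) : disc a b c d * (u * x + v * y) ^ 6 =
    disc (F a b c d x y) (u * Fy b c d x y - v * Fx a b c x y) (c' a b c d x y u v)
      (F a b c d (-v) u) := by
  unfold disc Fx Fy F c'; ring

end Pool.Agent.helper440_cubic
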