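import Pool.Agent.helper440_cubic.Rad
import Pool.Agent.helper440_cubic.Other

/-!
# Cubic forms with a 2-adic zero: the radical of the values
-/

namespace Pool.Agent.helper440_cubic

theorem main (a b c d : ℤ) (hdisc : disc a b c d ≠ 0)
    (h2 : ∀ e : ℕ, ∃ x y : ℤ, IsCoprime x y ∧ F a b c d x y ≠ 0 ∧ (2 : ℤ) ^ e ∣ F a b c d x y)
    (r : ℕ) (k : ℕ → ℤ) (hk : ∃ j ≤ r, k j ≠ 0) :
    ∃ C : ℝ, 0 < C ∧ ∀ B : ℝ, ∃ x y : ℤ, IsCoprime x y ∧ F a b c d x y * form r k x y ≠ 0 ∧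
      B < ((max |x| |y| : ℤ) : ℝ) ∧
      (R (F a b c d x y * form r k x y).natAbs : ℝ) * √(Real.log ((max |x| |y| : ℤ) : ℝ)) ≤
        C * ((max |x| |y| : ℤ) : ℝ) ^ (r + 1) := by
  -- the exact power of two in the discriminant
  obtain ⟨D, hD⟩ : ∃ D : ℕ, ¬ (2 : ℤ) ^ (D + 1) ∣ disc a b c d := by
    refine ⟨(disc a b c d).natAbs, fun h => ?_⟩
    have h1 := Int.natAbs_dvd_natAbs.2 h
    rw [Int.natAbs_pow] at h1
    have h3 := Nat.le_of_dvd (Int.natAbs_pos.2 hdisc) h1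
    have h4 : (disc a b c d).natAbs + 1 < 2 ^ ((disc a b c d).natAbs + 1) := Nat.lt_two_pow_self
    have h5 : (2 : ℤ).natAbs = 2 := rfl
    rw [h5] at h3
    omega
  obtain ⟨x₀, y₀, hxy₀, hF₀, hd₀⟩ := h2 (3 * D + 2)
  set m₀ : ℤ := F a b c d x₀ y₀ with hm₀
  -- the exact power of two in `m₀`
  have hex : ∃ T : ℕ, ¬ (2 : ℤ) ^ (T + 1) ∣ m₀ := by
    refine ⟨m₀.natAbs, fun h => ?_⟩
    have h1 := Int.natAbs_dvd_natAbs.2 h
    rw [Int.natAbs_pow] at h1
    have h3 := Nat.le_of_dvd (Int.natAbs_pos.2 hF₀) h1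
    have h4 : m₀.natAbs + 1 < 2 ^ (m₀.natAbs + 1) := Nat.lt_two_pow_self
    have h5 : (2 : ℤ).natAbs = 2 := rfl
    rw [h5] at h3
    omega
  obtain ⟨T, hT⟩ := hex
  obtain ⟨t, -, w, hw, hwodd⟩ := exists_exact hT
  have ht1 : (2 : ℤ) ^ t ∣ m₀ := ⟨w, hw⟩
  have ht2 : ¬ (2 : ℤ) ^ (t + 1) ∣ m₀ := by
    intro h
    rw [hw, pow_succ] at h
    exact hwodd (Int.dvd_of_mul_dvd_mul_left (by positivity) h)
  have ht3 : 3 * D + 2 ≤ t := by
    by_contra h
    exact ht2 ((pow_dvd_pow 2 (by omega)).trans hd₀)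
  obtain ⟨K, hK, hK'⟩ := exists_K a b c d
  obtain ⟨B₀, hB₀⟩ := form_ne_zero r k hk
  -- the constants
  set A : ℤ := 1 + (|a| + |b| + |c| + |d|) with hA
  have hA1 : 1 ≤ A := by
    have : 0 ≤ |a| + |b| + |c| + |d| := by positivity
    linarith
  set A' : ℤ := 1 + ∑ j ∈ Finset.range (r + 1), |k j| with hA'
  have hA'1 : 1 ≤ A' := by
    have : 0 ≤ ∑ j ∈ Finset.range (r + 1), |k j| := Finset.sum_nonneg fun _ _ => abs_nonneg _
    linarith
  set M₀ : ℤ := max |x₀| |y₀| with hM₀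
  have hM₀1 : 1 ≤ M₀ := by
    by_contra h
    have h1 : M₀ ≤ 0 := by omega
    have hx : x₀ = 0 := abs_eq_zero.1 (le_antisymm ((le_max_left _ _).trans h1) (abs_nonneg _))
    have hy : y₀ = 0 := abs_eq_zero.1 (le_antisymm ((le_max_right _ _).trans h1) (abs_nonneg _))
    apply hF₀
    rw [hm₀, hx, hy]
    unfold F; ring
  set L : ℝ := Real.log ((K * M₀ : ℤ) : ℝ) with hL
  have hKM : (1 : ℝ) ≤ ((K * M₀ : ℤ) : ℝ) := by
    have : (1 : ℤ) ≤ K * M₀ := by nlinarith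
    exact_mod_cast this
  have hL0 : 0 ≤ L := Real.log_nonneg hKM
  set c₁ : ℝ := (m₀.natAbs : ℝ) * (2 * A) with hc₁
  have hm₀1 : (1 : ℝ) ≤ (m₀.natAbs : ℝ) := by
    have := Int.natAbs_pos.2 hF₀
    exact_mod_cast this
  have hA1r : (1 : ℝ) ≤ (A : ℝ) := by exact_mod_cast hA1
  have hA'1r : (1 : ℝ) ≤ (A' : ℝ) := by exact_mod_cast hA'1
  have hc₁1 : 1 ≤ c₁ := by rw [hc₁]; nlinarith
  refine ⟨c₁ * A' * √L + 1, by positivity, fun B => ?_⟩
  -- choose `n`
  obtain ⟨n, hn⟩ : ∃ n : ℕ, c₁ * (max 1 (max B B₀)) < n := exists_nat_gt _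
  have hn2 : c₁ * (max 1 (max B B₀)) < (2 : ℝ) ^ n := by
    have : (n : ℝ) < 2 ^ n := by exact_mod_cast Nat.lt_two_pow_self
    linarith
  obtain ⟨x, y, ρ, hxy, hF, hρ, hdvd, hM⟩ := iter hD hxy₀ ht3 ht1 hF₀ hK hK' n
  set M : ℤ := max |x| |y| with hMd
  set m : ℤ := F a b c d x y with hm
  have hM0 : 0 ≤ M := (abs_nonneg x).trans (le_max_left _ _)
  have hmB : m.natAbs ≤ ((A * M).toNat) ^ 3 := by
    have h1 := F_le a b c d x y M (le_max_left _ _) (le_max_right _ _)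
    have h3 : |m| ≤ (A * M) ^ 3 := by
      refine h1.trans ?_
      have e : (A * M) ^ 3 = A ^ 3 * M ^ 3 := by ring
      rw [e]
      refine mul_le_mul_of_nonneg_right ?_ (by positivity)
      have h4 : A ≤ A ^ 3 := by
        have : A ^ 1 ≤ A ^ 3 := pow_le_pow_right₀ hA1 (by norm_num)
        simpa using this
      linarith
    have h5 : (0 : ℤ) ≤ A * M := mul_nonneg (by linarith) hM0
    zify
    rw [Int.toNat_of_nonneg h5]
    exact h3
  have hR := R_cube hF hF₀ hρ hdvd ht2 ht1 hmB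
  have hRr : (2 : ℝ) ^ n * (R m.natAbs : ℝ) ≤ c₁ * M := by
    have h5 : (0 : ℤ) ≤ A * M := mul_nonneg (by linarith) hM0
    have h6 : ((2 ^ n * R m.natAbs : ℕ) : ℝ) ≤ ((m₀.natAbs * (2 * (A * M).toNat) : ℕ) : ℝ) := by
      exact_mod_cast hR
    push_cast at h6
    have h7 : (((A * M).toNat : ℕ) : ℝ) = (A : ℝ) * M := by
      have : (((A * M).toNat : ℤ) : ℝ) = ((A * M : ℤ) : ℝ) := by rw [Int.toNat_of_nonneg h5]
      push_cast at this
      exact_mod_cast this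
    rw [h7] at h6
    calc (2 : ℝ) ^ n * (R m.natAbs : ℝ) ≤ m₀.natAbs * (2 * (A * M)) := h6
      _ = c₁ * M := by rw [hc₁]; ring
  have hR1 : (1 : ℝ) ≤ (R m.natAbs : ℝ) := by exact_mod_cast R_pos m.natAbs
  have hp2 : (0 : ℝ) < (2 : ℝ) ^ n := by positivity
  have hMbig : max 1 (max B B₀) < (M : ℝ) := by
    have h1 : (2 : ℝ) ^ n ≤ c₁ * M := by
      refine le_trans ?_ hRr
      exact le_mul_of_one_le_right hp2.le hR1
    have h3 : c₁ * max 1 (max B B₀) < c₁ * M := lt_of_lt_of_le hn2 h1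
    exact lt_of_mul_lt_mul_left h3 (by linarith)
  have hM1 : (1 : ℝ) < M := lt_of_le_of_lt (le_max_left _ _) hMbig
  have hMB : B < (M : ℝ) :=
    lt_of_le_of_lt ((le_max_left _ _).trans (le_max_right _ _)) hMbig
  have hMB₀ : (B₀ : ℝ) < (M : ℝ) :=
    lt_of_le_of_lt ((le_max_right _ _).trans (le_max_right _ _)) hMbig
  have hform : form r k x y ≠ 0 := hB₀ x y hxy (by exact_mod_cast hMB₀)
  refine ⟨x, y, hxy, mul_ne_zero hF hform, hMB, ?_⟩
  -- the logarithm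
  have hlog : Real.log (M : ℝ) ≤ 4 ^ n * L := by
    have h1 : (M : ℝ) ≤ ((K * M₀ : ℤ) : ℝ) ^ 4 ^ n := by
      have h3 : M ≤ (K * M₀) ^ 4 ^ n := by
        refine le_trans ?_ hM
        nlinarith
      exact_mod_cast h3
    have h3 := Real.log_le_log (by linarith) h1
    rw [Real.log_pow] at h3
    push_cast at h3 ⊢
    rw [hL]; push_cast
    exact h3
  have hsq : √(Real.log (M : ℝ)) ≤ 2 ^ n * √L := by
    rw [Real.sqrt_le_left (by positivity), mul_pow, Real.sq_sqrt hL0]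
    have e : ((2 : ℝ) ^ n) ^ 2 = 4 ^ n := by rw [← pow_mul, mul_comm, pow_mul]; norm_num
    rw [e]; exact hlog
  have hRprod : (R (m * form r k x y).natAbs : ℝ) ≤ (R m.natAbs : ℝ) * (A' * (M : ℝ) ^ r) := by
    have h1 : R (m * form r k x y).natAbs ≤ R m.natAbs * (form r k x y).natAbs := by
      rw [Int.natAbs_mul]
      exact (R_mul_le _ _).trans (Nat.mul_le_mul_left _ (R_le (Int.natAbs_ne_zero.2 hform)))
    have h3 : ((form r k x y).natAbs : ℝ) ≤ A' * (M : ℝ) ^ r := by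
      have h4 := form_le r k (le_max_left |x| |y|) (le_max_right |x| |y|)
      have h5 : |form r k x y| ≤ A' * M ^ r := by
        refine h4.trans ?_
        refine mul_le_mul_of_nonneg_right ?_ (by positivity)
        linarith
      have h6 : (((form r k x y).natAbs : ℤ) : ℝ) ≤ ((A' * M ^ r : ℤ) : ℝ) :=
        Int.cast_le.2 (by rw [Int.natCast_natAbs]; exact h5)
      calc ((form r k x y).natAbs : ℝ) = (((form r k x y).natAbs : ℤ) : ℝ) :=
            (Int.cast_natCast _).symm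
        _ ≤ ((A' * M ^ r : ℤ) : ℝ) := h6
        _ = A' * (M : ℝ) ^ r := by push_cast; ring
    calc (R (m * form r k x y).natAbs : ℝ) ≤ ((R m.natAbs * (form r k x y).natAbs : ℕ) : ℝ) := by
          exact_mod_cast h1
      _ = (R m.natAbs : ℝ) * ((form r k x y).natAbs : ℝ) := by push_cast; ring
      _ ≤ _ := by gcongr
  have hMr : (0 : ℝ) ≤ (M : ℝ) := by linarith
  have hA'0 : (0 : ℝ) ≤ A' := by linarith
  calc (R (m * form r k x y).natAbs : ℝ) * √(Real.log (M : ℝ))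
      ≤ ((R m.natAbs : ℝ) * (A' * (M : ℝ) ^ r)) * (2 ^ n * √L) := by gcongr
    _ = ((2 : ℝ) ^ n * (R m.natAbs : ℝ)) * (A' * √L * (M : ℝ) ^ r) := by ring
    _ ≤ (c₁ * M) * (A' * √L * (M : ℝ) ^ r) := by gcongr
    _ = (c₁ * A' * √L) * (M : ℝ) ^ (r + 1) := by ring
    _ ≤ (c₁ * A' * √L + 1) * (M : ℝ) ^ (r + 1) := by
        refine mul_le_mul_of_nonneg_right ?_ (by positivity)
        linarith

/-- integers close to a 2-adic zero of a cubic polynomial -/
theorem close {a b c d : ℤ} {θ : ℤ_[2]} (h : (a : ℤ_[2]) + b * θ + c * θ ^ 2 + d * θ ^ 3 = 0)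
    (e : ℕ) (N : ℤ) : ∃ y : ℤ, N < y ∧ (2 : ℤ) ^ e ∣ a + b * y + c * y ^ 2 + d * y ^ 3 := by
  refine ⟨(θ.appr e : ℤ) + 2 ^ e * (|N| + 1), ?_, ?_⟩
  · have h1 : (1 : ℤ) ≤ 2 ^ e := one_le_pow₀ (by norm_num)
    have h2 := le_abs_self N
    have h3 : (0 : ℤ) ≤ (θ.appr e : ℤ) := Int.natCast_nonneg _
    have h4 := abs_nonneg N
    nlinarith
  · set y : ℤ := (θ.appr e : ℤ) + 2 ^ e * (|N| + 1) with hy
    have h1 := θ.appr_spec e
    rw [Ideal.mem_span_singleton] at h1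
    have h2 : ((2 : ℕ) : ℤ_[2]) ^ e ∣ θ - (y : ℤ_[2]) := by
      have e1 : θ - (y : ℤ_[2]) = (θ - (θ.appr e : ℤ_[2])) +
          ((2 : ℕ) : ℤ_[2]) ^ e * (-((|N| : ℤ) : ℤ_[2]) - 1) := by
        rw [hy]; push_cast; ring
      rw [e1]
      exact dvd_add h1 (Dvd.intro _ rfl)
    have h3 : ((2 : ℕ) : ℤ_[2]) ^ e ∣ ((a + b * y + c * y ^ 2 + d * y ^ 3 : ℤ) : ℤ_[2]) := by
      have e1 : ((a + b * y + c * y ^ 2 + d * y ^ 3 : ℤ) : ℤ_[2]) =
          (θ - (y : ℤ_[2])) * -(b + c * ((y : ℤ_[2]) + θ) + d * ((y : ℤ_[2]) ^ 2 + y * θ + θ ^ 2)) := by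
        push_cast
        linear_combination (1 : ℤ_[2]) * h
      rw [e1]
      exact Dvd.dvd.mul_right h2 _
    exact (PadicInt.pow_p_dvd_int_iff e _).1 h3

/-- a zero in the projective line over `ℚ₂` -/
theorem of_padic {a b c d : ℤ} (hdisc : disc a b c d ≠ 0) {α β : ℚ_[2]} (hne : α ≠ 0 ∨ β ≠ 0)
    (h : (a : ℚ_[2]) * α ^ 3 + b * α ^ 2 * β + c * α * β ^ 2 + d * β ^ 3 = 0) (e : ℕ) :
    ∃ x y : ℤ, IsCoprime x y ∧ F a b c d x y ≠ 0 ∧ (2 : ℤ) ^ e ∣ F a b c d x y := by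
  -- values at coprime pairs of large size are not zero
  obtain ⟨B, hB⟩ := form_ne_zero 3 (fun j => if j = 0 then d else if j = 1 then c else
    if j = 2 then b else a) (by
      by_contra hk
      push Not at hk
      have h0 := hk 0 (by norm_num)
      have h1 := hk 1 (by norm_num)
      have h3 := hk 2 (by norm_num)
      have h4 := hk 3 (by norm_num)
      simp at h0 h1 h3 h4
      apply hdisc
      unfold disc
      rw [h0, h1, h3, h4]; ring)
  have hform : ∀ x y : ℤ, form 3 (fun j => if j = 0 then d else if j = 1 then c else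
      if j = 2 then b else a) x y = F a b c d x y := by
    intro x y
    unfold form F
    simp [Finset.sum_range_succ]
    ring
  rcases le_total ‖β‖ ‖α‖ with hle | hle
  · have hα : α ≠ 0 := by
      intro h0
      rw [h0, norm_zero] at hle
      rcases hne with h1 | h1
      · exact h1 h0
      · exact h1 (norm_le_zero_iff.1 hle)
    have hα' : 0 < ‖α‖ := norm_pos_iff.2 hα
    have hnorm : ‖β / α‖ ≤ 1 := by
      rw [norm_div, div_le_one hα']; exact hle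
    set θ : ℤ_[2] := ⟨β / α, hnorm⟩ with hθ
    have hθ0 : (a : ℤ_[2]) + b * θ + c * θ ^ 2 + d * θ ^ 3 = 0 := by
      apply Subtype.ext
      push_cast
      rw [hθ]
      simp only
      field_simp
      linear_combination h
    obtain ⟨y, hy1, hy2⟩ := close hθ0 e (max B 1)
    refine ⟨1, y, isCoprime_one_left, ?_, ?_⟩
    · rw [← hform]
      refine hB 1 y isCoprime_one_left ?_
      refine lt_of_lt_of_le (lt_of_le_of_lt (le_max_left B 1) hy1) ?_
      exact (le_abs_self y).trans (le_max_right _ _)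
    · have e1 : F a b c d 1 y = a + b * y + c * y ^ 2 + d * y ^ 3 := by unfold F; ring
      rw [e1]; exact hy2
  · have hβ : β ≠ 0 := by
      intro h0
      rw [h0, norm_zero] at hle
      rcases hne with h1 | h1
      · exact h1 (norm_le_zero_iff.1 hle)
      · exact h1 h0
    have hβ' : 0 < ‖β‖ := norm_pos_iff.2 hβ
    have hnorm : ‖α / β‖ ≤ 1 := by
      rw [norm_div, div_le_one hβ']; exact hle
    set θ : ℤ_[2] := ⟨α / β, hnorm⟩ with hθ
    have hθ0 : (d : ℤ_[2]) + c * θ + b * θ ^ 2 + a * θ ^ 3 = 0 := by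
      apply Subtype.ext
      push_cast
      rw [hθ]
      simp only
      field_simp
      linear_combination h
    obtain ⟨x, hx1, hx2⟩ := close hθ0 e (max B 1)
    refine ⟨x, 1, isCoprime_one_right, ?_, ?_⟩
    · rw [← hform]
      refine hB x 1 isCoprime_one_right ?_
      refine lt_of_lt_of_le (lt_of_le_of_lt (le_max_left B 1) hx1) ?_
      exact (le_abs_self x).trans (le_max_left _ _)
    · have e1 : F a b c d x 1 = d + c * x + b * x ^ 2 + a * x ^ 3 := by unfold F; ring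
      rw [e1]; exact hx2

end Pool.Agent.helper440_cubic
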