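import Pool.Agent.helper440_cubic.Iter

/-!
# The radical
-/

namespace Pool.Agent.helper440_cubic

/-- the radical -/
def R (m : ℕ) : ℕ := ∏ p ∈ m.primeFactors, p

theorem R_le {m : ℕ} (hm : m ≠ 0) : R m ≤ m :=
  Nat.le_of_dvd (Nat.pos_of_ne_zero hm) (Nat.prod_primeFactors_dvd m)

theorem R_pos (m : ℕ) : 0 < R m :=
  Finset.prod_pos fun _ hp => (Nat.prime_of_mem_primeFactors hp).pos

theorem R_mono {m n : ℕ} (h : m.primeFactors ⊆ n.primeFactors) : R m ≤ R n := by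
  unfold R
  exact Finset.prod_le_prod_of_subset_of_one_le' h
    fun p hp _ => (Nat.prime_of_mem_primeFactors hp).pos

theorem R_mul_le (m n : ℕ) : R (m * n) ≤ R m * R n := by
  by_cases hm : m = 0
  · subst hm
    rw [zero_mul]
    exact Nat.le_mul_of_pos_right _ (R_pos n)
  by_cases hn : n = 0
  · subst hn
    rw [mul_zero]
    exact Nat.le_mul_of_pos_left _ (R_pos m)
  unfold R
  rw [Nat.primeFactors_mul hm hn, ← Finset.prod_union_inter]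
  exact Nat.le_mul_of_pos_right _ (Finset.prod_pos fun p hp =>
    (Nat.prime_of_mem_primeFactors (Finset.mem_inter.1 hp).1).pos)

theorem R_two_pow (k : ℕ) : R (2 ^ k) ≤ 2 := by
  unfold R
  rcases Nat.eq_zero_or_pos k with rfl | hk
  · simp
  · rw [Nat.primeFactors_prime_pow hk.ne' Nat.prime_two]
    simp

/-- `2 ^ n` divides `p`: the radical of `p` -/
theorem R_of_two_pow {n p : ℕ} (hp : p ≠ 0) (h : 2 ^ n ∣ p) : 2 ^ n * R p ≤ 2 * p := by
  obtain ⟨q, rfl⟩ := h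
  have hq : q ≠ 0 := fun h => hp (by rw [h, mul_zero])
  calc 2 ^ n * R (2 ^ n * q) ≤ 2 ^ n * (R (2 ^ n) * R q) := Nat.mul_le_mul_left _ (R_mul_le _ _)
    _ ≤ 2 ^ n * (2 * q) := Nat.mul_le_mul_left _ (Nat.mul_le_mul (R_two_pow n) (R_le hq))
    _ = 2 * (2 ^ n * q) := by ring

/-- `m = m₀ ρ³` with `2 ^ (t + 3 n) ∣ m` and `2 ^ t` exactly dividing `m₀` -/
theorem R_cube {m m₀ : ℤ} {ρ : ℚ} {t n : ℕ} (hm : m ≠ 0) (hm₀ : m₀ ≠ 0)
    (h : (m : ℚ) = m₀ * ρ ^ 3) (h2 : (2 : ℤ) ^ (t + 3 * n) ∣ m) (ht : ¬ (2 : ℤ) ^ (t + 1) ∣ m₀)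
    (htt : (2 : ℤ) ^ t ∣ m₀) {B : ℕ} (hB : m.natAbs ≤ B ^ 3) :
    2 ^ n * R m.natAbs ≤ m₀.natAbs * (2 * B) := by
  set p : ℤ := ρ.num with hp
  set q : ℤ := (ρ.den : ℤ) with hq
  have hq0 : q ≠ 0 := by rw [hq]; exact_mod_cast ρ.den_nz
  have hcop : IsCoprime p q := ρ.isCoprime_num_den
  have hρq : ρ * q = p := by rw [hq, hp]; exact_mod_cast Rat.mul_den_eq_num ρ
  have hz : m * q ^ 3 = m₀ * p ^ 3 := by
    have : (m : ℚ) * q ^ 3 = m₀ * p ^ 3 := by rw [h, ← hρq]; ring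
    exact_mod_cast this
  have hp0 : p ≠ 0 := by
    intro h0
    rw [h0] at hz
    have : m * q ^ 3 ≠ 0 := mul_ne_zero hm (pow_ne_zero _ hq0)
    apply this
    rw [hz]; ring
  -- `2 ^ n ∣ p`
  obtain ⟨w, hw⟩ := htt
  have hwodd : ¬ (2 : ℤ) ∣ w := by
    intro h'
    apply ht
    rw [hw, pow_succ]
    exact mul_dvd_mul_left _ h'
  have h3 : (2 : ℤ) ^ n ∣ p := by
    have h4 : (2 : ℤ) ^ t * 2 ^ (3 * n) ∣ 2 ^ t * (w * p ^ 3) := by
      rw [← pow_add, ← mul_assoc, ← hw, ← hz]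
      exact Dvd.dvd.mul_right h2 _
    have h5 : (2 : ℤ) ^ (3 * n) ∣ w * p ^ 3 := Int.dvd_of_mul_dvd_mul_left (by positivity) h4
    have h6 := pow_dvd_of_odd_mul hwodd h5
    rw [mul_comm 3 n, pow_mul] at h6
    exact (Int.pow_dvd_pow_iff (by norm_num)).1 h6
  -- the size of `p`
  have hqd : q ^ 3 ∣ m₀ := by
    have : q ^ 3 ∣ m₀ * p ^ 3 := ⟨m, by rw [← hz]; ring⟩
    exact (IsCoprime.pow hcop.symm).dvd_of_dvd_mul_right this
  have hple : p.natAbs ≤ B := by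
    have h7 : p.natAbs ^ 3 ≤ m.natAbs := by
      obtain ⟨r, hr⟩ := hqd
      have h8 : m = r * p ^ 3 := by
        apply mul_right_cancel₀ (pow_ne_zero 3 hq0)
        rw [hz, hr]; ring
      rw [h8, Int.natAbs_mul, Int.natAbs_pow]
      have hr0 : 0 < r.natAbs := by
        rw [Int.natAbs_pos]
        intro h9
        apply hm₀
        rw [hr, h9, mul_zero]
      exact Nat.le_mul_of_pos_left _ hr0
    exact (Nat.pow_le_pow_iff_left (by norm_num)).1 (h7.trans hB)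
  have h10 : (2 : ℕ) ^ n ∣ p.natAbs := by
    have : (((2 : ℕ) ^ n : ℕ) : ℤ) ∣ p := by push_cast; exact h3
    exact Int.natCast_dvd.1 this
  have hRm : R m.natAbs ≤ m₀.natAbs * R p.natAbs := by
    have h11 : m ∣ m₀ * p ^ 3 := ⟨q ^ 3, by rw [← hz]⟩
    have h12 : m.natAbs.primeFactors ⊆ (m₀.natAbs * p.natAbs).primeFactors := by
      intro l hl
      have hlp := Nat.prime_of_mem_primeFactors hl
      have hl1 := Nat.dvd_of_mem_primeFactors hl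
      have hl2 : l ∣ (m₀ * p ^ 3).natAbs := hl1.trans (Int.natAbs_dvd_natAbs.2 h11)
      rw [Int.natAbs_mul, Int.natAbs_pow] at hl2
      rw [Nat.mem_primeFactors]
      refine ⟨hlp, ?_, mul_ne_zero (Int.natAbs_ne_zero.2 hm₀) (Int.natAbs_ne_zero.2 hp0)⟩
      rcases (Nat.Prime.dvd_mul hlp).1 hl2 with h13 | h13
      · exact Dvd.dvd.mul_right h13 _
      · exact Dvd.dvd.mul_left (hlp.dvd_of_dvd_pow h13) _
    calc R m.natAbs ≤ R (m₀.natAbs * p.natAbs) := R_mono h12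
      _ ≤ R m₀.natAbs * R p.natAbs := R_mul_le _ _
      _ ≤ m₀.natAbs * R p.natAbs := Nat.mul_le_mul_right _ (R_le (Int.natAbs_ne_zero.2 hm₀))
  calc 2 ^ n * R m.natAbs ≤ 2 ^ n * (m₀.natAbs * R p.natAbs) := Nat.mul_le_mul_left _ hRm
    _ = m₀.natAbs * (2 ^ n * R p.natAbs) := by ring
    _ ≤ m₀.natAbs * (2 * p.natAbs) :=
        Nat.mul_le_mul_left _ (R_of_two_pow (Int.natAbs_ne_zero.2 hp0) h10)
    _ ≤ m₀.natAbs * (2 * B) := Nat.mul_le_mul_left _ (Nat.mul_le_mul_left _ hple)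

end Pool.Agent.helper440_cubic
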