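import Pool.Agent.helper440_cubic.Form

/-!
# One tangent step near a 2-adic zero of the form
-/

namespace Pool.Agent.helper440_cubic

variable {a b c d : ℤ}

theorem F_smul (g x y : ℤ) : F a b c d (g * x) (g * y) = g ^ 3 * F a b c d x y := by
  unfold F; ring

/-- the exact power of two -/
theorem exists_exact {μ : ℤ} {D : ℕ} (h : ¬ (2 : ℤ) ^ (D + 1) ∣ μ) :
    ∃ s ≤ D, ∃ m : ℤ, μ = 2 ^ s * m ∧ ¬ (2 : ℤ) ∣ m := by
  classical
  have hex : ∃ s : ℕ, ¬ (2 : ℤ) ^ (s + 1) ∣ μ := ⟨D, h⟩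
  set s := Nat.find hex with hs
  have h1 : ¬ (2 : ℤ) ^ (s + 1) ∣ μ := Nat.find_spec hex
  have h2 : s ≤ D := Nat.find_min' hex h
  have h3 : (2 : ℤ) ^ s ∣ μ := by
    rcases Nat.eq_zero_or_pos s with h0 | h0
    · rw [h0]; simp
    · have := Nat.find_min hex (m := s - 1) (by omega)
      rw [not_not] at this
      have e : s - 1 + 1 = s := by omega
      rwa [e] at this
  obtain ⟨m, hm⟩ := h3
  refine ⟨s, h2, m, hm, fun h4 => h1 ?_⟩
  rw [hm, pow_succ]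
  exact mul_dvd_mul_left _ h4

theorem two_not_dvd_pow {m : ℤ} (h : ¬ (2 : ℤ) ∣ m) (n : ℕ) : ¬ (2 : ℤ) ∣ m ^ n := by
  intro h'
  exact h (Int.prime_two.dvd_of_dvd_pow h')

theorem pow_dvd_of_odd_mul {m w : ℤ} {k : ℕ} (h : ¬ (2 : ℤ) ∣ m) (h' : (2 : ℤ) ^ k ∣ m * w) :
    (2 : ℤ) ^ k ∣ w := by
  have : IsCoprime ((2 : ℤ) ^ k) m :=
    IsCoprime.pow_left ((Prime.coprime_iff_not_dvd Int.prime_two).2 h)
  exact this.dvd_of_dvd_mul_left h'

theorem step {D : ℕ} (hD : ¬ (2 : ℤ) ^ (D + 1) ∣ disc a b c d) {x y : ℤ} (hxy : IsCoprime x y)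
    (h2 : (2 : ℤ) ^ (3 * D + 2) ∣ F a b c d x y) (hF : F a b c d x y ≠ 0) :
    ∃ (x' y' : ℤ) (ρ : ℚ), IsCoprime x' y' ∧ F a b c d x' y' ≠ 0 ∧
      (F a b c d x' y' : ℚ) = F a b c d x y * ρ ^ 3 ∧
      (∀ e : ℕ, (2 : ℤ) ^ e ∣ F a b c d x y → (2 : ℤ) ^ (e + 3) ∣ F a b c d x' y') ∧
      |x'| ≤ |X a b c d x y| ∧ |y'| ≤ |Y a b c d x y| := by
  obtain ⟨u, v, huv⟩ := hxy
  set f : ℤ := F a b c d x y with hf
  set μ : ℤ := u * Fy b c d x y - v * Fx a b c x y with hμ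
  set c₁ : ℤ := c' a b c d x y u v with hc₁
  set d₁ : ℤ := F a b c d (-v) u with hd₁
  have hH : H a b c d x y = μ ^ 2 - 3 * f * c₁ := by
    have := H_eq a b c d x y u v
    rw [huv] at this
    rw [hμ, hf, hc₁]; linarith
  have hG : G a b c d x y = -2 * μ ^ 3 + 9 * f * μ * c₁ - 27 * f ^ 2 * d₁ := by
    have := G_eq a b c d x y u v
    rw [huv] at this
    rw [hμ, hf, hc₁, hd₁]; linarith
  have hdisc : disc a b c d = disc f μ c₁ d₁ := by
    have := disc_eq a b c d x y u v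
    rw [huv] at this
    rw [hμ, hf, hc₁, hd₁]; linarith
  have heu := euler a b c d x y
  have hFy : Fy b c d x y = μ * x + 3 * v * f := by
    rw [hμ, hf]; linear_combination (-Fy b c d x y) * huv + v * heu
  have hFx : Fx a b c x y = -μ * y + 3 * u * f := by
    rw [hμ, hf]; linear_combination (-Fx a b c x y) * huv + u * heu
  -- `2 ^ (D + 1)` does not divide `μ`
  have hμ2 : ¬ (2 : ℤ) ^ (D + 1) ∣ μ := by
    intro h
    apply hD
    have hf' : (2 : ℤ) ^ (D + 1) ∣ f := (pow_dvd_pow 2 (by omega)).trans h2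
    rw [hdisc]
    have e : disc f μ c₁ d₁ = μ * (μ * c₁ ^ 2 - 4 * μ ^ 2 * d₁ + 18 * f * c₁ * d₁) +
        f * (-4 * c₁ ^ 3 - 27 * f * d₁ ^ 2) := by unfold disc; ring
    rw [e]
    exact dvd_add (Dvd.dvd.mul_right h _) (Dvd.dvd.mul_right hf' _)
  obtain ⟨s, hsD, m, hm, hmodd⟩ := exists_exact hμ2
  -- `κ = u X + v Y`
  set κ : ℤ := μ ^ 3 - 27 * f ^ 2 * d₁ with hκ
  have hκXY : u * X a b c d x y + v * Y a b c d x y = κ := by
    have e : u * X a b c d x y + v * Y a b c d x y =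
        G a b c d x y * (u * x + v * y) + 3 * H a b c d x y * μ := by
      unfold X Y; rw [hμ]; ring
    rw [e, huv, hG, hH, hκ]; ring
  have h2s : (2 : ℤ) ^ (3 * s + 2) ∣ f := (pow_dvd_pow 2 (by omega)).trans h2
  have hκ2 : ¬ (2 : ℤ) ^ (3 * s + 1) ∣ κ := by
    intro h
    have h3 : (2 : ℤ) ^ (3 * s + 1) ∣ μ ^ 3 := by
      have e : μ ^ 3 = κ + f * (27 * f * d₁) := by rw [hκ]; ring
      rw [e]
      exact dvd_add h (Dvd.dvd.mul_right ((pow_dvd_pow 2 (by omega)).trans h2s) _)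
    rw [hm, mul_pow, ← pow_mul, mul_comm s 3, pow_succ] at h3
    exact two_not_dvd_pow hmodd 3 (Int.dvd_of_mul_dvd_mul_left (by positivity) h3)
  -- `G`
  have hG1 : ∃ G₁ : ℤ, G a b c d x y = 2 ^ (3 * s + 1) * G₁ ∧ G₁ ≠ 0 := by
    obtain ⟨w, hw⟩ := h2s
    refine ⟨-m ^ 3 + 2 * w * (9 * μ * c₁ - 27 * f * d₁), ?_, ?_⟩
    · rw [hG]
      have e : -2 * μ ^ 3 + 9 * f * μ * c₁ - 27 * f ^ 2 * d₁ =
        -2 * μ ^ 3 + f * (9 * μ * c₁ - 27 * f * d₁) := by ring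
      rw [e]
      have e2 : μ ^ 3 = 2 ^ (3 * s) * m ^ 3 := by
        rw [hm, mul_pow, ← pow_mul, mul_comm s 3]
      rw [e2]
      nth_rewrite 1 [hw]
      rw [pow_succ, pow_succ]
      ring
    · intro h0
      apply two_not_dvd_pow hmodd 3
      refine ⟨w * (9 * μ * c₁ - 27 * f * d₁), ?_⟩
      linarith
  obtain ⟨G₁, hG1, hG10⟩ := hG1
  have hG0 : G a b c d x y ≠ 0 := by rw [hG1]; positivity
  -- the greatest common divisor
  set g : ℤ := (Int.gcd (X a b c d x y) (Y a b c d x y) : ℤ) with hg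
  have hgX : g ∣ X a b c d x y := Int.gcd_dvd_left ..
  have hgY : g ∣ Y a b c d x y := Int.gcd_dvd_right ..
  have hgκ : g ∣ κ := by
    rw [← hκXY]
    exact dvd_add (Dvd.dvd.mul_left hgX _) (Dvd.dvd.mul_left hgY _)
  have hκ0 : κ ≠ 0 := fun h => hκ2 (by rw [h]; exact dvd_zero _)
  have hg0 : g ≠ 0 := fun h => hκ0 (zero_dvd_iff.1 (h ▸ hgκ))
  have hg2 : ¬ (2 : ℤ) ^ (3 * s + 1) ∣ g := fun h => hκ2 (h.trans hgκ)
  obtain ⟨γ, hγs, g₁, hg1, hgodd⟩ := exists_exact hg2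
  obtain ⟨x', hx'⟩ := hgX
  obtain ⟨y', hy'⟩ := hgY
  have hcop : IsCoprime x' y' := by
    have hpos : 0 < Int.gcd (X a b c d x y) (Y a b c d x y) := by
      rcases Nat.eq_zero_or_pos (Int.gcd (X a b c d x y) (Y a b c d x y)) with h | h
      · exfalso; apply hg0; rw [hg, h]; rfl
      · exact h
    obtain ⟨r, t, hrt⟩ := Int.gcd_dvd_iff.1 (dvd_refl (Int.gcd (X a b c d x y) (Y a b c d x y)))
    refine ⟨r, t, ?_⟩
    have h1 : g * (r * x' + t * y') = g * 1 := by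
      have e : g = X a b c d x y * r + Y a b c d x y * t := by rw [hg]; exact_mod_cast hrt
      calc g * (r * x' + t * y') = (g * x') * r + (g * y') * t := by ring
        _ = X a b c d x y * r + Y a b c d x y * t := by rw [← hx', ← hy']
        _ = g * 1 := by rw [← e, mul_one]
    exact mul_left_cancel₀ hg0 h1
  have hmain : g ^ 3 * F a b c d x' y' = G a b c d x y ^ 3 * f := by
    rw [← F_smul, ← hx', ← hy', tangent]
  have hF' : F a b c d x' y' ≠ 0 := by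
    intro h
    rw [h, mul_zero] at hmain
    have : G a b c d x y ^ 3 * f ≠ 0 := mul_ne_zero (pow_ne_zero _ hG0) hF
    exact this hmain.symm
  have hgabs : 1 ≤ |g| := Int.one_le_abs hg0
  refine ⟨x', y', (G a b c d x y : ℚ) / g, hcop, hF', ?_, ?_, ?_, ?_⟩
  · have hgq : (g : ℚ) ≠ 0 := by exact_mod_cast hg0
    have hmq : (g : ℚ) ^ 3 * F a b c d x' y' = (G a b c d x y : ℚ) ^ 3 * f := by
      exact_mod_cast hmain
    field_simp
    linarith
  · intro e he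
    have hγ : G a b c d x y = 2 ^ (γ + 1) * (2 ^ (3 * s - γ) * G₁) := by
      rw [hG1, ← mul_assoc, ← pow_add]
      congr 2; omega
    have h3 : g₁ ^ 3 * F a b c d x' y' = 8 * (2 ^ (3 * s - γ) * G₁) ^ 3 * f := by
      have hp : ((2 : ℤ) ^ γ) ^ 3 ≠ 0 := by positivity
      apply mul_left_cancel₀ hp
      rw [hg1, hγ] at hmain
      rw [pow_succ (2 : ℤ) γ] at hmain
      linear_combination hmain
    have h4 : (2 : ℤ) ^ (e + 3) ∣ g₁ ^ 3 * F a b c d x' y' := by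
      rw [h3]
      obtain ⟨w, hw⟩ := he
      refine ⟨(2 ^ (3 * s - γ) * G₁) ^ 3 * w, ?_⟩
      rw [hw, pow_add]
      ring
    exact pow_dvd_of_odd_mul (two_not_dvd_pow hgodd 3) h4
  · rw [hx', abs_mul]
    exact le_mul_of_one_le_left (abs_nonneg _) hgabs
  · rw [hy', abs_mul]
    exact le_mul_of_one_le_left (abs_nonneg _) hgabs

end Pool.Agent.helper440_cubic
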